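import Pool.Agent.H27.CAL.Stmts2

/-!
# Project CAL, module BSEQ: existence of the sequence of records
-/

open scoped BigOperators ENNReal Topology
open Filter

namespace CAL

section
variable {𝕜 : Type*} [RCLike 𝕜] {A : Type*} [PartialOrder A] {Y : Type*} [NormedAddCommGroup Y]
  [NormedSpace 𝕜 Y] {τ : TreeLev A}

/-- validity only depends on the values of the old records below N -/
theorem bseq_congr {Ch : Finset ℕ → Prop} {F : FamSys Ch} {w : Wts}
    {net : ℕ → Finset ℕ → Finset A → Finset (Fn 𝕜 A Y)} {n N : ℕ} {l l' : ℕ → Rc 𝕜 A Y}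
    (h : ∀ i < N, l i = l' i) {ρ : Rc 𝕜 A Y} (hv : Valid τ F w net n N l ρ) :
    Valid τ F w net n N l' ρ where
  lev := hv.lev
  pos := hv.pos
  wt := hv.wt
  pred := fun ξ hξ => by
    obtain ⟨h1, h2⟩ := hv.pred ξ hξ
    exact ⟨h1, by rw [← h ξ h1]; exact h2⟩
  lv0 := hv.lv0
  lv1 := fun ξ hξ => by
    rw [← h ξ (hv.pred ξ hξ).1]
    exact hv.lv1 ξ hξ
  fam := hv.fam
  cases := by
    rcases hv.cases with h1 | ⟨h1, h2, h3, h4, h5⟩
    · exact Or.inl h1
    · refine Or.inr ⟨h1, h2, h3, fun hp => ?_, fun ξ hξ => ?_⟩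
      · rw [← h _ h2]
        exact h4 hp
      · rw [← h _ h2, ← h ξ (hv.pred ξ hξ).1]
        exact h5 ξ hξ

end

universe u1 u2 u3

theorem cal_bseq {𝕜 : Type u1} [RCLike 𝕜] {A : Type u2} [PartialOrder A] {Y : Type u3}
    [NormedAddCommGroup Y] [NormedSpace 𝕜 Y] (τ : TreeLev A)
    (net : ℕ → Finset ℕ → Finset A → Finset (Fn 𝕜 A Y))
    (hrec : RECStmt.{max u1 u2 u3}) (hbldf : BLDFStmt τ net) : BSEQStmt τ net := by
  classical
  intro hnet Ch F w
  obtain ⟨hfin, hne⟩ := hbldf hnet F w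
  have hfin' : ∀ n (l : List (Rc 𝕜 A Y)),
      {ρ | Valid τ F w net n l.length (fun i => l.getD i default) ρ}.Finite :=
    fun n l => hfin n l.length _
  obtain ⟨r, len, h0, hmono, htend, hmap⟩ := hrec (Rc 𝕜 A Y)
    (fun n l => (hfin' n l).toFinset.toList) (by
      intro n
      obtain ⟨m, hm, h⟩ := hne n
      refine ⟨m, hm, fun l hl => ?_⟩
      obtain ⟨ρ, hρ⟩ := h l.length (fun i => l.getD i default)
      have h2 : ρ ∈ (hfin' m l).toFinset.toList := by
        rw [Finset.mem_toList, Set.Finite.mem_toFinset]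
        exact hρ
      rw [hl] at h2
      simp at h2)
  -- the members of the blocks
  have hmem : ∀ n ρ, (∃ γ, len n ≤ γ ∧ γ < len (n + 1) ∧ r γ = ρ) ↔
      Valid τ F w net n (len n) r ρ := by
    intro n ρ
    have h1 : ρ ∈ (List.range' (len n) (len (n + 1) - len n)).map r ↔
        ∃ γ, len n ≤ γ ∧ γ < len (n + 1) ∧ r γ = ρ := by
      rw [List.mem_map]
      constructor
      · rintro ⟨γ, hγ, rfl⟩
        rw [List.mem_range'_1] at hγ
        have := hmono (Nat.le_succ n)
        exact ⟨γ, hγ.1, by simp only [Nat.succ_eq_add_one] at this; omega, rfl⟩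
      · rintro ⟨γ, h1, h2, rfl⟩
        refine ⟨γ, ?_, rfl⟩
        rw [List.mem_range'_1]
        omega
    rw [← h1, hmap n, Finset.mem_toList, Set.Finite.mem_toFinset]
    have hlen : ((List.range (len n)).map r).length = len n := by simp
    have hget : ∀ i < len n, ((List.range (len n)).map r).getD i default = r i := by
      intro i hi
      rw [List.getD_eq_getElem?_getD, List.getElem?_map]
      simp [List.getElem?_range hi]
    show Valid τ F w net n ((List.range (len n)).map r).length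
      (fun i => ((List.range (len n)).map r).getD i default) ρ ↔ _
    rw [hlen]
    exact ⟨fun h => bseq_congr hget h, fun h => bseq_congr (fun i hi => (hget i hi).symm) h⟩
  -- every index lies in one block
  have hblk : ∀ γ, ∃ n, len n ≤ γ ∧ γ < len (n + 1) := by
    intro γ
    have hex : ∃ n, γ < len n := by
      obtain ⟨n, hn⟩ := (htend.eventually (eventually_gt_atTop γ)).exists
      exact ⟨n, hn⟩
    have h1 := Nat.find_spec hex
    have h2 : Nat.find hex ≠ 0 := by
      intro h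
      rw [h, h0] at h1
      omega
    obtain ⟨m, hm⟩ := Nat.exists_eq_succ_of_ne_zero h2
    refine ⟨m, ?_, by rw [hm] at h1; exact h1⟩
    have h3 := Nat.find_min hex (m := m) (by omega)
    omega
  have hval : ∀ γ, ∃ n, len n ≤ γ ∧ γ < len (n + 1) ∧ Valid τ F w net n (len n) r (r γ) := by
    intro γ
    obtain ⟨n, h1, h2⟩ := hblk γ
    exact ⟨n, h1, h2, (hmem n (r γ)).1 ⟨γ, h1, h2, rfl⟩⟩
  refine ⟨r, len, hmono, fun γ => ?_, fun γ => ?_, fun n ρ hρ => ?_⟩
  · obtain ⟨n, h1, h2, h3⟩ := hval γ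
    rw [h3.lev]
    exact ⟨h1, h2⟩
  · obtain ⟨n, h1, h2, h3⟩ := hval γ
    rw [h3.lev]
    exact h3
  · obtain ⟨γ, -, -, h⟩ := (hmem n ρ).2 hρ
    exact ⟨γ, h⟩

end CAL
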