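import Pool.Agent.H27.CAL.Stmts2

/-!
# Project CAL, module BUILD: existence of rich data, without extension operators
-/

open scoped BigOperators ENNReal Topology
open Filter

namespace CAL

section
variable {𝕜 : Type*} [RCLike 𝕜] {A : Type*} [PartialOrder A] {Y : Type*} [NormedAddCommGroup Y]
  [NormedSpace 𝕜 Y] {τ : TreeLev A}

theorem build_nrm_single (η : ℕ) : nrm ((Finsupp.single η 1, 0) : Fn 𝕜 A Y) = 1 := by
  unfold nrm
  simp

theorem build_supp_single (η : ℕ) :
    ((Finsupp.single η 1, 0) : Fn 𝕜 A Y).1.support = {η} := by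
  show (Finsupp.single η (1 : 𝕜)).support = {η}
  exact Finsupp.support_single_ne_zero _ one_ne_zero

variable {Ch : Finset ℕ → Prop} {F : FamSys Ch} {w : Wts}
  {net : ℕ → Finset ℕ → Finset A → Finset (Fn 𝕜 A Y)} {r : ℕ → Rc 𝕜 A Y} {len : ℕ → ℕ}

theorem build_lt_len (h : RecSeq τ F w net r len) {γ n : ℕ} (hγ : (r γ).lev < n) : γ < len n :=
  (h.lev γ).2.trans_le (h.mono hγ)

theorem build_lev_lt (h : RecSeq τ F w net r len) {γ n : ℕ} (hγ : γ < len n) : (r γ).lev < n := by
  by_contra hc
  have h1 := h.mono (not_lt.1 hc)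
  have h2 := (h.lev γ).1
  omega

/-- the data -/
noncomputable def buildPre (h : RecSeq τ F w net r len) (hnet : IsNet net) : Pre 𝕜 Y τ where
  lev := fun γ => (r γ).lev
  wt := fun γ => (r γ).wt
  pred := fun γ => (r γ).pred
  b := fun γ => (r γ).b
  Lv := fun γ => (r γ).Lv
  lev_pos := fun γ => (h.valid γ).pos
  fin := fun n => (Set.finite_lt_nat (len (n + 1))).subset (fun γ hγ => by
    have hγ' : (r γ).lev ≤ n := hγ
    exact build_lt_len h (Nat.lt_succ_of_le hγ'))
  wt_le := fun γ => (h.valid γ).wt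
  pred_lev := fun γ ξ hξ => build_lev_lt h ((h.valid γ).pred ξ hξ).1
  pred_wt := fun γ ξ hξ => ((h.valid γ).pred ξ hξ).2
  b_norm := fun γ => by
    rcases (h.valid γ).cases with ⟨-, -, T, -, hb⟩ | ⟨-, -, hb, -⟩
    · exact (hnet.1 _ _ _ _ hb).1
    · rw [hb, build_nrm_single]
  b_sc := fun γ β hβ => by
    rcases (h.valid γ).cases with ⟨-, -, T, -, hb⟩ | ⟨-, hth, hb, -⟩
    · have := (hnet.1 _ _ _ _ hb).2.1 hβ
      exact build_lev_lt h (Finset.mem_range.1 this)
    · rw [hb, build_supp_single, Finset.mem_singleton] at hβ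
      rw [hβ]
      exact build_lev_lt h hth
  b_nd := fun γ a ha => by
    rcases (h.valid γ).cases with ⟨-, -, T, hT, hb⟩ | ⟨-, hth, hb, -⟩
    · exact (hT a).1 ((hnet.1 _ _ _ _ hb).2.2 ha)
    · rw [hb] at ha
      simp at ha
  Lv_none := fun γ hγ => (h.valid γ).lv0 hγ
  Lv_some := fun γ ξ hξ => (h.valid γ).lv1 ξ hξ

/-- richness of the data -/
noncomputable def buildRich (h : RecSeq τ F w net r len) (hnet : IsNet net) (hsgf : SGFStmt) :
    PreRich (buildPre h hnet) F w where
  sg := fun γ => w.sgf γ (r γ).lev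
  th := fun γ => (r γ).th
  sg_inj := fun γ γ' hg => (hsgf w).2.2 _ _ _ _ hg
  sg_mem := fun γ => (hsgf w).1 _ _
  sg_lt := fun γ => (hsgf w).2.1 _ _
  wt_mem := fun γ => by
    show (r γ).wt ∈ w.E1 ∪ w.E2 ∪ w.O
    rcases (h.valid γ).cases with ⟨h1, -⟩ | ⟨h1, -⟩
    · exact Or.inl h1
    · exact Or.inr h1
  adm := fun γ => (h.valid γ).fam
  odd_b := fun γ hγ => by
    have hγ' : (r γ).wt ∈ w.O := hγ
    rcases (h.valid γ).cases with ⟨h1, -⟩ | ⟨-, -, hb, -⟩
    · exfalso
      rcases h1 with h1 | h1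
      · exact Set.disjoint_left.1 w.e1o h1 hγ'
      · exact Set.disjoint_left.1 w.e2o h1 hγ'
    · exact hb
  odd_none := fun γ hγ hp => by
    have hγ' : (r γ).wt ∈ w.O := hγ
    rcases (h.valid γ).cases with ⟨h1, -⟩ | ⟨-, -, -, h4, -⟩
    · exfalso
      rcases h1 with h1 | h1
      · exact Set.disjoint_left.1 w.e1o h1 hγ'
      · exact Set.disjoint_left.1 w.e2o h1 hγ'
    · exact h4 hp
  odd_some := fun γ ξ hγ hp => by
    have hγ' : (r γ).wt ∈ w.O := hγ
    rcases (h.valid γ).cases with ⟨h1, -⟩ | ⟨-, -, -, -, h5⟩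
    · exfalso
      rcases h1 with h1 | h1
      · exact Set.disjoint_left.1 w.e1o h1 hγ'
      · exact Set.disjoint_left.1 w.e2o h1 hγ'
    · exact h5 ξ hp
  even_rich := by
    classical
    intro j hj m c hc hsc hnd δ hδ
    obtain ⟨n0, hn0⟩ := hnet.2 c hc δ hδ
    refine ⟨max n0 (max (j + 1) (m + 1)), fun n hn ξ hnone hsome => ?_⟩
    have hn1 : n0 ≤ n := (le_max_left _ _).trans hn
    have hn2 : j + 1 ≤ n := ((le_max_left _ _).trans (le_max_right _ _)).trans hn
    have hn3 : m + 1 ≤ n := ((le_max_right _ _).trans (le_max_right _ _)).trans hn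
    have hT : {a | τ.lev a < n}.Finite := (τ.fin n).subset (fun a ha => by
      have ha' : τ.lev a < n := ha
      exact ha'.le)
    have hTm : ∀ a, a ∈ hT.toFinset ↔ τ.lev a < n := by
      intro a
      rw [Set.Finite.mem_toFinset]
      rfl
    obtain ⟨c', hc', hcc⟩ := hn0 n hn1 (Finset.range (len n)) hT.toFinset
      (fun β hβ => by
        have h1 : (r β).lev ≤ m := hsc β hβ
        exact Finset.mem_range.2 (build_lt_len h (by omega)))
      (fun a ha => by
        have h1 := hnd a ha
        exact (hTm a).2 (by omega))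
    rcases ξ with _ | ζ
    · obtain ⟨γ, hγ⟩ := h.all n ⟨n, j, none, c', {n}, 0⟩
        { lev := rfl
          pos := by omega
          wt := by
            show j ≤ n
            omega
          pred := fun ξ hξ => by simp at hξ
          lv0 := fun _ => rfl
          lv1 := fun ξ hξ => by simp at hξ
          fam := hnone rfl
          cases := Or.inl ⟨hj, rfl, hT.toFinset, hTm, hc'⟩ }
      refine ⟨γ, ?_, ?_, ?_, ?_⟩
      · show (r γ).lev = n
        rw [hγ]
      · show (r γ).wt = j
        rw [hγ]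
      · show (r γ).pred = none
        rw [hγ]
      · show nrm ((r γ).b - c) ≤ δ
        rw [hγ]
        exact hcc
    · obtain ⟨hw, hl, hf⟩ := hsome ζ rfl
      have hw' : (r ζ).wt = j := hw
      have hl' : (r ζ).lev < n := hl
      obtain ⟨γ, hγ⟩ := h.all n ⟨n, j, some ζ, c', insert n (r ζ).Lv, 0⟩
        { lev := rfl
          pos := by omega
          wt := by
            show j ≤ n
            omega
          pred := fun ξ hξ => by
            have : ζ = ξ := by simpa using hξ
            rw [← this]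
            exact ⟨build_lt_len h hl', hw'⟩
          lv0 := fun hξ => by simp at hξ
          lv1 := fun ξ hξ => by
            have : ζ = ξ := by simpa using hξ
            rw [← this]
          fam := hf
          cases := Or.inl ⟨hj, rfl, hT.toFinset, hTm, hc'⟩ }
      refine ⟨γ, ?_, ?_, ?_, ?_⟩
      · show (r γ).lev = n
        rw [hγ]
      · show (r γ).wt = j
        rw [hγ]
      · show (r γ).pred = some ζ
        rw [hγ]
      · show nrm ((r γ).b - c) ≤ δ
        rw [hγ]
        exact hcc
  odd_rich := by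
    classical
    intro j hj η n ξ hη hjn hnone hsome
    have hη' : (r η).lev < n := hη
    have hηN : η < len n := build_lt_len h hη'
    rcases ξ with _ | ζ
    · obtain ⟨hf, hw, hlt⟩ := hnone rfl
      obtain ⟨γ, hγ⟩ := h.all n ⟨n, j, none, (Finsupp.single η 1, 0), {n}, η⟩
        { lev := rfl
          pos := by omega
          wt := hjn
          pred := fun ξ hξ => by simp at hξ
          lv0 := fun _ => rfl
          lv1 := fun ξ hξ => by simp at hξ
          fam := hf
          cases := Or.inr ⟨hj, hηN, rfl, fun _ => ⟨hw, hlt⟩, fun ξ hξ => by simp at hξ⟩ }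
      refine ⟨γ, ?_, ?_, ?_, ?_⟩
      · show (r γ).lev = n
        rw [hγ]
      · show (r γ).wt = j
        rw [hγ]
      · show (r γ).pred = none
        rw [hγ]
      · show (r γ).th = η
        rw [hγ]
    · obtain ⟨hw, hl, hf, hs⟩ := hsome ζ rfl
      have hw' : (r ζ).wt = j := hw
      have hl' : (r ζ).lev < n := hl
      have hs' : (r η).wt = w.sgf ζ (r ζ).lev := hs
      obtain ⟨γ, hγ⟩ := h.all n ⟨n, j, some ζ, (Finsupp.single η 1, 0), insert n (r ζ).Lv, η⟩
        { lev := rfl
          pos := by omega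
          wt := hjn
          pred := fun ξ hξ => by
            have : ζ = ξ := by simpa using hξ
            rw [← this]
            exact ⟨build_lt_len h hl', hw'⟩
          lv0 := fun hξ => by simp at hξ
          lv1 := fun ξ hξ => by
            have : ζ = ξ := by simpa using hξ
            rw [← this]
          fam := hf
          cases := Or.inr ⟨hj, hηN, rfl, fun hξ => by simp at hξ, fun ξ hξ => by
            have : ζ = ξ := by simpa using hξ
            rw [← this]
            exact hs'⟩ }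
      refine ⟨γ, ?_, ?_, ?_, ?_⟩
      · show (r γ).lev = n
        rw [hγ]
      · show (r γ).wt = j
        rw [hγ]
      · show (r γ).pred = some ζ
        rw [hγ]
      · show (r γ).th = η
        rw [hγ]

end

theorem cal_build {𝕜 : Type*} [RCLike 𝕜] {A : Type*} [PartialOrder A] (τ : TreeLev A)
    (Y : Type*) [NormedAddCommGroup Y] [NormedSpace 𝕜 Y]
    (hnet : NETStmt 𝕜 A Y)
    (hseq : ∀ net : ℕ → Finset ℕ → Finset A → Finset (Fn 𝕜 A Y), BSEQStmt τ net)
    (hsgf : SGFStmt) : BUILDStmt (𝕜 := 𝕜) τ Y := by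
  intro hsep Ch F w
  obtain ⟨net, hn⟩ := hnet hsep
  obtain ⟨r, len, h⟩ := hseq net hn F w
  exact ⟨buildPre h hn, ⟨buildRich h hn hsgf⟩⟩

end CAL
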