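import Pool.Agent.H27.CAL.Stmts2

/-!
# Project CAL, module ECH: the scalar is controlled modulo compact operators
-/

open scoped BigOperators ENNReal Topology
open Filter

set_option linter.unusedSectionVars false

namespace CAL

section
variable {𝕜 : Type*} [RCLike 𝕜] {A : Type*} [PartialOrder A] {Y : Type*} [NormedAddCommGroup Y]
  [NormedSpace 𝕜 Y] {τ : TreeLev A}

theorem ech_RX_zero (D : Dat 𝕜 Y τ) (hran : RANStmt D) (m : (A × A) →₀ 𝕜) :
    ∃ N, ∀ s t x, N ≤ s → D.InRan s t x → D.RX m x = 0 := by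
  classical
  obtain ⟨-, h2, -, h4, -⟩ := hran
  refine ⟨m.support.sup (fun ab => τ.lev ab.2), fun s t x hs hx => ?_⟩
  unfold Dat.RX Finsupp.sum
  rw [sum_apply]
  refine Finset.sum_eq_zero (fun ab hab => ?_)
  have hl : τ.lev ab.2 ≤ s :=
    (Finset.le_sup (f := fun ab : A × A => τ.lev ab.2) hab).trans hs
  have h0 : D.dn ab.2 x = 0 := by
    unfold Dat.dn
    rw [sub_apply, ContinuousLinearMap.comp_apply, h2 s t x hx _ hl,
      h4 s t x _ hx (by omega), map_zero, sub_zero]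
  rw [smul_apply, ContinuousLinearMap.comp_apply, h0, map_zero, smul_zero]

theorem cal_ech (D : Dat 𝕜 Y τ) (hrex : REXStmt D) (hrnull : RNULLStmt D)
    (hwnc : WNCStmt 𝕜 D.X D.X) (hran : RANStmt D) : ECHStmt D := by
  intro Ch F w R
  obtain ⟨C, x, s, t, j, hx, hx1⟩ := hrex F w R
  have hC1 : 1 ≤ C := (hx1 0).trans (hx.nm 0)
  have hsk : ∀ k, k ≤ s k := by
    intro k
    induction k with
    | zero => exact Nat.zero_le _
    | succ k ih =>
      have h1 := hx.st k
      have h2 := hx.ts k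
      omega
  refine ⟨(C + 1)⁻¹, by positivity, fun c m K hK => ?_⟩
  obtain ⟨N, hN⟩ := ech_RX_zero D hran m
  have hKx : Tendsto (fun k => K (x k)) atTop (𝓝 0) :=
    hwnc K hK x C hx.nm (fun f => hrnull F w R f x ⟨C, s, t, j, hx⟩)
  have hQ0 : 0 ≤ ‖c • ContinuousLinearMap.id 𝕜 D.X + D.RX m + K‖ :=
    ContinuousLinearMap.opNorm_nonneg _
  set Q := ‖c • ContinuousLinearMap.id 𝕜 D.X + D.RX m + K‖ with hQ
  have hineq : ∀ k, N ≤ k → ‖c‖ ≤ Q * C + ‖K (x k)‖ := by
    intro k hk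
    have h1 : D.RX m (x k) = 0 := hN (s k) (t k) (x k) (hk.trans (hsk k)) (hx.ran k)
    have h2 : c • x k = (c • ContinuousLinearMap.id 𝕜 D.X + D.RX m + K) (x k) - K (x k) := by
      simp [h1]
    have h3 : ‖c • x k‖ ≤ Q * C + ‖K (x k)‖ := by
      rw [h2]
      refine (norm_sub_le _ _).trans (add_le_add ?_ le_rfl)
      exact (ContinuousLinearMap.le_opNorm _ _).trans
        (mul_le_mul_of_nonneg_left (hx.nm k) (norm_nonneg _))
    rw [norm_smul] at h3
    have h4 : ‖c‖ * 1 ≤ ‖c‖ * ‖x k‖ := mul_le_mul_of_nonneg_left (hx1 k) (norm_nonneg _)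
    linarith
  have hlim : Tendsto (fun k => Q * C + ‖K (x k)‖) atTop (𝓝 (Q * C + 0)) := by
    have := hKx.norm
    rw [norm_zero] at this
    exact tendsto_const_nhds.add this
  have hle : ‖c‖ ≤ Q * C + 0 :=
    ge_of_tendsto hlim ((eventually_ge_atTop N).mono (fun k hk => hineq k hk))
  rw [inv_mul_le_iff₀ (by positivity)]
  nlinarith

end

end CAL
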