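import Pool.Agent.H27.CAL.Stmts2

/-!
# Project CAL, module HSEP: without nodes the dual of X is separable
-/

open scoped BigOperators ENNReal Topology
open Filter

set_option linter.unusedSectionVars false

namespace CAL

section
variable {𝕜 : Type*} [RCLike 𝕜] {A : Type*} [PartialOrder A] {Y : Type*} [NormedAddCommGroup Y]
  [NormedSpace 𝕜 Y] {τ : TreeLev A}

theorem hsep_fin [IsEmpty A] (D : Dat 𝕜 Y τ) (hbio : BIOStmt D) (f : D.X →L[𝕜] 𝕜) (p : ℕ) :
    f.comp (D.PX p) = ∑ γ ∈ (D.fin p).toFinset, f (D.dv γ) • D.ds γ := by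
  classical
  obtain ⟨-, -, -, -, -, -, -, -, -, -, -, -, -, h⟩ := hbio
  ext x
  have h1 := h p ∅ (D.fin p).toFinset (fun a => isEmptyElim a) (fun γ => by
    rw [Set.Finite.mem_toFinset]; rfl) x
  rw [ContinuousLinearMap.comp_apply, h1, Finset.sum_empty, zero_add, map_sum,
    sum_apply]
  refine Finset.sum_congr rfl (fun γ _ => ?_)
  rw [map_smul, smul_apply, smul_eq_mul, smul_eq_mul, mul_comm]

theorem hsep_gen {E : Type*} [NormedAddCommGroup E] [NormedSpace 𝕜 E] (u : ℕ → E)
    (h : ∀ f : E, ∀ e : ℝ, 0 < e → ∃ g ∈ Submodule.span 𝕜 (Set.range u), ‖f - g‖ < e) :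
    TopologicalSpace.SeparableSpace E := by
  have hclos : closure (Submodule.span 𝕜 (Set.range u) : Set E) = Set.univ := by
    rw [Set.eq_univ_iff_forall]
    intro f
    rw [Metric.mem_closure_iff]
    intro e he
    obtain ⟨g, hg, hfg⟩ := h f e he
    exact ⟨g, hg, by rwa [dist_eq_norm]⟩
  have h1 : TopologicalSpace.IsSeparable (Submodule.span 𝕜 (Set.range u) : Set E) :=
    (Set.countable_range u).isSeparable.span
  have h2 := h1.closure
  rw [hclos] at h2
  exact TopologicalSpace.isSeparable_univ_iff.1 h2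

theorem cal_hsep (D : Dat 𝕜 Y τ) (hbnull : BNULLStmt D) (hbio : BIOStmt D) : HSEPStmt D := by
  intro hA Ch F w R
  refine hsep_gen (𝕜 := 𝕜) D.ds (fun f e he => ?_)
  obtain ⟨N, hN⟩ := (hbnull F w R).2 f (e / 2) (by positivity)
  refine ⟨f.comp (D.PX N), ?_, ?_⟩
  · rw [hsep_fin D hbio]
    exact Submodule.sum_mem _ (fun γ _ => Submodule.smul_mem _ _
      (Submodule.subset_span ⟨γ, rfl⟩))
  · refine lt_of_le_of_lt (ContinuousLinearMap.opNorm_le_bound _ (by positivity) (fun x => ?_))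
      (half_lt_self he)
    have := hN N le_rfl x
    rwa [map_sub] at this

end

end CAL
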